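import Pool.Agent.H63.VC3.Final
import Pool.Agent.H63.VC6.LogL
import Pool.Agent.S4.R.Fin

/-!
# The asymptotics of the colored `SU(n)` invariants, from those of `JG4`
-/

set_option autoImplicit false

namespace Pool.Agent.S4

open Pool.Agent.H63.VC hiding ext
open Pool.Agent.H63.VC3 Pool.Agent.H63.VC7 Pool.Agent.H63.VC8 Pool.Agent.H63.VC11
open Pool.Agent.H63.VC12 Complex Filter Topology
open scoped BigOperators

variable {m p : ℕ}

private theorem F_Fin1_inv (c : ℂ) (g : ℕ) :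
    Tendsto (fun N : ℕ => exp (c / ((N : ℂ) + g))) atTop (𝓝 1) := by
  have t1 : Tendsto (fun M : ℕ => c / (M : ℂ)) atTop (𝓝 0) := by
    have := (tendsto_inv_atTop_nhds_zero_nat (𝕜 := ℂ)).const_mul c
    rw [mul_zero] at this
    refine this.congr fun M => ?_
    rw [div_eq_mul_inv]
  have t2 := (continuous_exp.tendsto (0 : ℂ)).comp (t1.comp (tendsto_add_atTop_nat g))
  rw [exp_zero] at t2
  refine t2.congr fun N => ?_
  simp only [Function.comp_apply]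
  push_cast
  rfl

private theorem F_Fin1_Dg (n g : ℕ) (hn : 2 ≤ n) (hg : 1 ≤ g) (hgn : g < n) :
    ∃ c : ℝ, c ≠ 0 ∧ Tendsto (fun M : ℕ => Dg n g M * (M : ℝ) ^ (2 * n - 4)) atTop (𝓝 c) := by
  refine ⟨((2 * Real.pi) ^ (g - 1) * (Nat.factorial (g - 1) : ℝ)) *
        ((2 * Real.pi) ^ (n - g - 1) * (Nat.factorial (n - g - 1) : ℝ)) *
        ((2 * Real.pi) ^ (n - 2) * (Nat.factorial (n - 2) : ℝ)), ?_, ?_⟩
  · positivity
  · refine (((S_lim (g - 1)).mul (S_lim (n - g - 1))).mul (S_lim (n - 2))).congr fun M => ?_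
    unfold Dg
    have e : 2 * n - 4 = (g - 1) + (n - g - 1) + (n - 2) := by omega
    rw [e, pow_add, pow_add]
    ring

private theorem F_Fin1_ka (n g N : ℕ) (hg : 1 ≤ g) (hgn : g < n) (s : ℤ) :
    ka (q0 (N + g)) n N ^ s = ((-1 : ℂ) ^ (n + g)) ^ s *
      exp (-(Real.pi * I * g * ((n : ℂ) - g) * s) / ((N : ℂ) + g)) := by
  have hM : ((N : ℂ) + g) ≠ 0 := by exact_mod_cast (by omega : N + g ≠ 0)
  have h1 : ka (q0 (N + g)) n N = (-1 : ℂ) ^ (n + g) *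
      exp (-(Real.pi * I * g * ((n : ℂ) - g)) / ((N : ℂ) + g)) := by
    unfold ka q0
    rw [show ((-1 : ℂ)) = exp (Real.pi * I) by rw [exp_pi_mul_I], ← exp_nat_mul, ← exp_nat_mul,
      ← exp_int_mul, ← exp_add, ← exp_add, exp_eq_exp_iff_exists_int]
    refine ⟨(N : ℤ) - g, ?_⟩
    push_cast
    field_simp
    ring
  rw [h1, mul_zpow, ← exp_int_mul]
  congr 2
  ring

/-- The product of the constants of the nodes. -/
private theorem F_Fin1_cst (P : Fin (m + 1) → Bool) (b : Fin (m + 1) → ℤ) (n g N : ℕ)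
    (hg : 1 ≤ g) :
    ∏ i, cst n g (N + g) (P i) (b i) =
      (∏ i, -(-1 : ℂ) ^ (nn n (P i) + g) / (4 * Real.pi)) / (Dg n g (N + g) : ℂ) ^ (m + 1) *
      (exp (∑ i, (b i : ℂ) * (Real.pi * I * bt (nn n (P i)))) *
      exp (-(((N : ℂ) + g) * (Real.pi * I / 4 * ∑ i, (b i : ℂ)))) *
      exp ((-∑ i, (b i : ℂ) * (Real.pi * I * (bt (nn n (P i)) : ℂ) ^ 2)) / ((N : ℂ) + g))) := by
  have hM : ((N : ℂ) + g) ≠ 0 := by exact_mod_cast (by omega : N + g ≠ 0)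
  have e1 : ∀ i, cst n g (N + g) (P i) (b i) =
      (-(-1 : ℂ) ^ (nn n (P i) + g) / (4 * Real.pi)) * ((Dg n g (N + g) : ℂ))⁻¹ *
      exp ((b i : ℂ) * (Real.pi * I * bt (nn n (P i))) + -(((N : ℂ) + g) *
        (Real.pi * I / 4 * (b i : ℂ))) +
        (-((b i : ℂ) * (Real.pi * I * (bt (nn n (P i)) : ℂ) ^ 2))) / ((N : ℂ) + g)) := by
    intro i
    unfold cst
    rw [div_mul_eq_div_div, div_eq_mul_inv (-(-1 : ℂ) ^ (nn n (P i) + g) / (4 * Real.pi))]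
    congr 2
    push_cast
    field_simp
    ring
  rw [Finset.prod_congr rfl fun i _ => e1 i, Finset.prod_mul_distrib, Finset.prod_mul_distrib,
    Finset.prod_const, Finset.card_univ, Fintype.card_fin, ← exp_sum, ← exp_add, ← exp_add,
    inv_pow, ← div_eq_mul_inv]
  congr 2
  rw [Finset.sum_add_distrib, Finset.sum_add_distrib, Finset.sum_neg_distrib, ← Finset.sum_div,
    Finset.sum_neg_distrib, Finset.mul_sum, Finset.mul_sum]

/-- The imaginary part of the growth rate. -/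
noncomputable def C4 (b : Fin (m + 1) → ℤ) (W : ℂ) (Op : Finset (Fin (m + 1))) : ℝ :=
  2 * Real.pi * W.im - Real.pi ^ 2 / 2 * (∑ i, (b i : ℝ)) + 2 * Real.pi ^ 2 * (Op.card : ℝ)

theorem C4_spec (b : Fin (m + 1) → ℤ) (W : ℂ) (Op : Finset (Fin (m + 1))) :
    ∃ k : ℤ, I * (((2 * Real.pi * W.re : ℝ) : ℂ) + (C4 b W Op : ℝ) * I) = 2 * Real.pi * I * W +
        (Real.pi : ℂ) ^ 2 / 2 * (∑ i, (b i : ℂ)) + k * (Real.pi : ℂ) ^ 2 := by
  refine ⟨-(2 * (Op.card : ℤ)), ?_⟩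
  have hWe : W = (W.re : ℂ) + (W.im : ℂ) * I := (Complex.re_add_im _).symm
  obtain ⟨A, hA⟩ : ∃ A : ℝ, A = ∑ i, (b i : ℝ) := ⟨_, rfl⟩
  have hAC : ∑ i, (b i : ℂ) = (A : ℂ) := by rw [hA]; push_cast; rfl
  unfold C4
  rw [hAC, ← hA]
  conv_rhs => rw [hWe]
  push_cast
  linear_combination (2 * Real.pi * W.im - Real.pi ^ 2 / 2 * A + 2 * Real.pi ^ 2 * (Op.card : ℂ) -
    2 * Real.pi * W.im) * Complex.I_sq

/-- The asymptotics of the colored invariants. -/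
theorem fin4 (P : Fin (m + 1) → Bool) (b : Fin (m + 1) → ℤ)
    (hP : OkL 0 (List.ofFn fun i => (P i, b i))) (r : Fin (p + 1) → ℤ)
    (hr : List.ofFn r = exr 0 (List.ofFn fun i => (P i, b i))) {n g : ℕ} (hn : 2 ≤ n)
    (hg : 1 ≤ g) (hgn : g < n) (W : ℂ) (Op : Finset (Fin (m + 1))) {κ0 : ℂ} (hκ0 : κ0 ≠ 0)
    (hlim : Tendsto (fun M : ℕ => (∏ i ∈ Op, (-1 : ℂ) ^ (M + nn n (P i) + 1)) *
      JG4 P (fun i => (b i : ℝ) / 2) n (min g (n - g)) M /
        ((((M : ℝ) ^ (3 / 2 * ((m : ℝ) + 1) + m / 2) : ℝ) : ℂ) * exp (M * W))) atTop (𝓝 κ0)) :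
    ∃ J : ℕ → ℂ,
      (∀ N : ℕ, n ≤ N → Tendsto (fun q => coloredSU (diagram Fin.castSucc r) n N q)
        (𝓝[≠] exp (Real.pi * I / (N + g))) (𝓝 (J N))) ∧
      (∃ L : ℕ → ℂ, (∀ᶠ N : ℕ in atTop, exp (L N) = J N) ∧
        Tendsto (fun N : ℕ => 2 * (Real.pi : ℂ) * L N / (N + g)) atTop
          (𝓝 (((2 * Real.pi * W.re : ℝ) : ℂ) + (C4 b W Op : ℝ) * I))) ∧
      Tendsto (fun N : ℕ => 2 * (Real.pi : ℂ) * log (J N) / (N + g)) atTop
        (𝓝 (((2 * Real.pi * W.re : ℝ) : ℂ))) ∧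
      ∃ κ : ℂ, κ ≠ 0 ∧ Tendsto (fun N : ℕ => J N /
        ((((N : ℝ) + g) ^ (2 * (n : ℝ) - 5 / 2) : ℝ) *
          exp ((N + g) * (((2 * Real.pi * W.re : ℝ) : ℂ) + (C4 b W Op : ℝ) * I) /
            (2 * Real.pi)))) atTop (𝓝 κ) := by
  have hpi : (Real.pi : ℂ) ≠ 0 := by exact_mod_cast Real.pi_ne_zero
  have h4 : (4 * Real.pi : ℂ) ≠ 0 := mul_ne_zero (by norm_num) hpi
  obtain ⟨A, hA⟩ : ∃ A : ℝ, A = ∑ i, (b i : ℝ) := ⟨_, rfl⟩
  have hAC : ∑ i, (b i : ℂ) = (A : ℂ) := by rw [hA]; push_cast; rfl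
  have hWe : W = (W.re : ℂ) + (W.im : ℂ) * I := (Complex.re_add_im _).symm
  obtain ⟨s, hs⟩ : ∃ s : ℤ, s = -∑ i, if P i then b i else 0 := ⟨_, rfl⟩
  obtain ⟨c, hc0, hDlim⟩ := F_Fin1_Dg n g hn hg hgn
  have hC : C4 b W Op = 2 * Real.pi * W.im - Real.pi ^ 2 / 2 * A +
      2 * Real.pi ^ 2 * (Op.card : ℝ) := by
    unfold C4
    rw [← hA]
  generalize C4 b W Op = C at hC ⊢
  set J : ℕ → ℂ := fun N => ka (q0 (N + g)) n N ^ s *
        ((∏ i, cst n g (N + g) (P i) (b i)) *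
        ((Dg n g (N + g) : ℂ) / ((N + g : ℕ) : ℂ) ^ 2) ^ m *
        JG4 P (fun i => (b i : ℝ) / 2) n (min g (n - g)) (N + g)) with hJ
  obtain ⟨K, hK⟩ : ∃ K : ℂ, K = ∏ i, -(-1 : ℂ) ^ (nn n (P i) + g) / (4 * Real.pi) := ⟨_, rfl⟩
  have hK0 : K ≠ 0 := by
    rw [hK]
    exact Finset.prod_ne_zero_iff.2 fun i _ => div_ne_zero
      (neg_ne_zero.2 (pow_ne_zero _ (by norm_num))) h4
  obtain ⟨B1, hB1⟩ : ∃ B1 : ℂ, B1 = ∑ i, (b i : ℂ) * (Real.pi * I * bt (nn n (P i))) := ⟨_, rfl⟩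
  obtain ⟨B2, hB2⟩ : ∃ B2 : ℂ, B2 = -∑ i, (b i : ℂ) * (Real.pi * I * (bt (nn n (P i)) : ℂ) ^ 2) :=
    ⟨_, rfl⟩
  obtain ⟨σ, hσ⟩ : ∃ σ : ℂ, σ = ∏ i ∈ Op, (-1 : ℂ) ^ (nn n (P i) + 1) := ⟨_, rfl⟩
  have hσ2 : σ * σ = 1 := by
    rw [hσ, ← Finset.prod_mul_distrib]
    refine Finset.prod_eq_one fun i _ => ?_
    rw [← mul_pow]
    norm_num
  have hσ0 : σ ≠ 0 := fun h => by rw [h, mul_zero] at hσ2; exact zero_ne_one hσ2
  -- the exponent
  have hexp : ∀ M : ℂ, exp (M * (((2 * Real.pi * W.re : ℝ) : ℂ) + C * I) / (2 * Real.pi)) =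
      exp (M * W) * exp (-(M * (Real.pi * I / 4 * A))) * exp (M * (Real.pi * I * (Op.card : ℂ))) := by
    intro M
    rw [← exp_add, ← exp_add]
    congr 1
    conv_rhs => rw [hWe]
    rw [hC]
    push_cast
    field_simp
    ring
  -- the asymptotics
  have hasy : Tendsto (fun N : ℕ => J N / ((((N : ℝ) + g) ^ (2 * (n : ℝ) - 5 / 2) : ℝ) *
      exp ((N + g) * (((2 * Real.pi * W.re : ℝ) : ℂ) + C * I) / (2 * Real.pi)))) atTop
      (𝓝 (((-1 : ℂ) ^ (n + g)) ^ s * K * exp B1 * σ * ((c : ℂ))⁻¹ * κ0)) := by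
    have t1 := F_Fin1_inv (-(Real.pi * I * g * ((n : ℂ) - g) * s)) g
    have t2 := F_Fin1_inv B2 g
    have t3 : Tendsto (fun N : ℕ => (((Dg n g (N + g) * ((N + g : ℕ) : ℝ) ^ (2 * n - 4) : ℝ)) : ℂ)⁻¹)
        atTop (𝓝 ((c : ℂ))⁻¹) := by
      have h1 := hDlim.comp (tendsto_add_atTop_nat g)
      have h2 := ((continuous_ofReal.tendsto c).comp h1).inv₀ (by exact_mod_cast hc0)
      exact h2
    have t6 := (((t1.mul t2).mul t3).mul (hlim.comp (tendsto_add_atTop_nat g))).const_mul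
      (((-1 : ℂ) ^ (n + g)) ^ s * K * exp B1 * σ)
    rw [mul_one, one_mul, ← mul_assoc] at t6
    refine t6.congr' ?_
    filter_upwards [eventually_ge_atTop n] with N hNn
    simp only [Function.comp_apply]
    have hN : ((N : ℂ) + g) ≠ 0 := by exact_mod_cast (by omega : N + g ≠ 0)
    have hNr : (0 : ℝ) < (N : ℝ) + g := by
      have : (1 : ℝ) ≤ g := by exact_mod_cast hg
      positivity
    have hDg : (Dg n g (N + g) : ℂ) ≠ 0 := by
      have h := (Reduce_Dg n g (N + g) hn hg (by omega) (by omega)).1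
      exact_mod_cast h.ne'
    -- the factors
    have e1 := F_Fin1_ka n g N hg hgn s
    have e2 := F_Fin1_cst P b n g N hg
    rw [← hK, ← hB1, ← hB2, hAC] at e2
    have e3 : ∏ i ∈ Op, (-1 : ℂ) ^ (N + g + nn n (P i) + 1) =
        exp (((N : ℂ) + g) * (Real.pi * I * (Op.card : ℂ))) * σ := by
      have : exp (((N : ℂ) + g) * (Real.pi * I * (Op.card : ℂ))) =
          ∏ _i ∈ Op, (-1 : ℂ) ^ (N + g) := by
        rw [Finset.prod_const, ← pow_mul, show ((N : ℂ) + g) * (Real.pi * I * (Op.card : ℂ)) =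
          (((N + g) * Op.card : ℕ) : ℂ) * (Real.pi * I) by push_cast; ring, exp_nat_mul,
          exp_pi_mul_I]
      rw [this, hσ, ← Finset.prod_mul_distrib]
      refine Finset.prod_congr rfl fun i _ => ?_
      rw [← pow_add]
      congr 1
    have e5 := hexp ((N : ℂ) + g)
    have e6 : (((((N + g : ℕ) : ℝ)) ^ (3 / 2 * ((m : ℝ) + 1) + m / 2) : ℝ) : ℂ) =
        (((((N : ℝ) + g) ^ (3 / 2 : ℝ) : ℝ)) : ℂ) * ((N : ℂ) + g) ^ (2 * m) := by
      have : ((N + g : ℕ) : ℝ) ^ (3 / 2 * ((m : ℝ) + 1) + m / 2) =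
          ((N : ℝ) + g) ^ (3 / 2 : ℝ) * ((N : ℝ) + g) ^ (2 * m) := by
        rw [← Real.rpow_natCast ((N : ℝ) + g) (2 * m), ← Real.rpow_add hNr]
        push_cast
        congr 1
        ring
      rw [this]
      push_cast
      rfl
    have e6' : ((((N : ℝ) + g) ^ (2 * (n : ℝ) - 5 / 2) : ℝ) : ℂ) =
        (((((N : ℝ) + g) ^ (3 / 2 : ℝ) : ℝ)) : ℂ) * ((N : ℂ) + g) ^ (2 * n - 4) := by
      have : ((N : ℝ) + g) ^ (2 * (n : ℝ) - 5 / 2) =
          ((N : ℝ) + g) ^ (3 / 2 : ℝ) * ((N : ℝ) + g) ^ (2 * n - 4) := by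
        rw [← Real.rpow_natCast ((N : ℝ) + g) (2 * n - 4), ← Real.rpow_add hNr]
        rw [Nat.cast_sub (by omega)]
        push_cast
        congr 1
        ring
      rw [this]
      push_cast
      rfl
    have e7 : exp (((N : ℂ) + g) * (Real.pi * I * (Op.card : ℂ))) *
        exp (((N : ℂ) + g) * (Real.pi * I * (Op.card : ℂ))) = 1 := by
      rw [← exp_add, show ((N : ℂ) + g) * (Real.pi * I * (Op.card : ℂ)) +
        ((N : ℂ) + g) * (Real.pi * I * (Op.card : ℂ)) =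
        ((((N + g) * Op.card : ℕ)) : ℂ) * (2 * Real.pi * I) by push_cast; ring, exp_nat_mul,
        exp_two_pi_mul_I, one_pow]
    have e9 := exp_ne_zero (((N : ℂ) + g) * W)
    have e10 := exp_ne_zero (-(((N : ℂ) + g) * (Real.pi * I / 4 * A)))
    have e12 := exp_ne_zero (((N : ℂ) + g) * (Real.pi * I * (Op.card : ℂ)))
    have e13 : (((((N : ℝ) + g) ^ (3 / 2 : ℝ) : ℝ)) : ℂ) ≠ 0 := by
      exact_mod_cast (Real.rpow_pos_of_pos hNr _).ne'
    have e14 : ((N : ℂ) + g) ^ (2 * m) ≠ 0 := pow_ne_zero _ hN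
    have e15 : ((N : ℂ) + g) ^ (2 * n - 4) ≠ 0 := pow_ne_zero _ hN
    have e16 : ((Dg n g (N + g) : ℂ) / ((N + g : ℕ) : ℂ) ^ 2) ^ m =
        (Dg n g (N + g) : ℂ) ^ m / ((N : ℂ) + g) ^ (2 * m) := by
      rw [div_pow, ← pow_mul]
      push_cast
      rfl
    have e17 : (((Dg n g (N + g) * ((N + g : ℕ) : ℝ) ^ (2 * n - 4) : ℝ)) : ℂ) =
        (Dg n g (N + g) : ℂ) * ((N : ℂ) + g) ^ (2 * n - 4) := by
      push_cast
      rfl
    have e18 : (((N + g : ℕ) : ℂ)) = (N : ℂ) + g := by push_cast; rfl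
    have e19 : (Dg n g (N + g) : ℂ) ^ (m + 1) = (Dg n g (N + g) : ℂ) ^ m * (Dg n g (N + g) : ℂ) :=
      pow_succ _ _
    have e20 : (Dg n g (N + g) : ℂ) ^ m ≠ 0 := pow_ne_zero _ hDg
    rw [hJ]
    simp only
    rw [e1, e2, e3, e5, e6, e6', e16, e17, e18, e19]
    clear e1 e2 e3 e5 e6 e6' e16 e17 e18 e19
    revert e7 e9 e10 e12 e13 e14 e15 e20 hDg hσ2
    generalize exp (((N : ℂ) + g) * W) = x1
    generalize exp (-(((N : ℂ) + g) * (Real.pi * I / 4 * A))) = x2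
    generalize exp (((N : ℂ) + g) * (Real.pi * I * (Op.card : ℂ))) = x4
    generalize (((((N : ℝ) + g) ^ (3 / 2 : ℝ) : ℝ)) : ℂ) = x5
    generalize ((N : ℂ) + g) ^ (2 * m) = x6
    generalize ((N : ℂ) + g) ^ (2 * n - 4) = x7
    generalize (Dg n g (N + g) : ℂ) ^ m = x8
    generalize (Dg n g (N + g) : ℂ) = x9
    generalize exp (-(Real.pi * I * g * ((n : ℂ) - g) * s) / ((N : ℂ) + g)) = x10
    generalize exp (B2 / ((N : ℂ) + g)) = x11
    generalize JG4 P (fun i => (b i : ℝ) / 2) n (min g (n - g)) (N + g) = x12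
    generalize ((-1 : ℂ) ^ (n + g)) ^ s = x13
    generalize exp B1 = x14
    intro hσ2 hDg e7 e9 e10 e12 e13 e14 e15 e20
    have k1 : x13 * K * x14 * σ * (x10 * x11 * (x9 * x7)⁻¹ * (x4 * σ * x12 / (x5 * x6 * x1))) =
        x13 * x10 * (K / (x8 * x9) * (x14 * x2 * x11) * (x8 / x6) * x12) /
          (x5 * x7 * (x1 * x2 * x4)) := by
      field_simp
      linear_combination (x13 * x14 * x10 * x11 * x12 * x4 ^ 2) * hσ2 +
        (x13 * x14 * x10 * x11 * x12) * e7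
    exact k1
  have hκ' : ((-1 : ℂ) ^ (n + g)) ^ s * K * exp B1 * σ * ((c : ℂ))⁻¹ * κ0 ≠ 0 := by
    refine mul_ne_zero (mul_ne_zero (mul_ne_zero (mul_ne_zero (mul_ne_zero ?_ hK0)
      (exp_ne_zero _)) hσ0) (inv_ne_zero (by exact_mod_cast hc0))) hκ0
    exact zpow_ne_zero _ (pow_ne_zero _ (by norm_num))
  -- the two normalisations
  have hrat : Tendsto (fun N : ℕ => ((N : ℂ) + 1) / ((N : ℂ) + g)) atTop (𝓝 1) := by
    have h1 : Tendsto (fun M : ℕ => (1 - g : ℂ) / (M : ℂ)) atTop (𝓝 0) := by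
      have := (tendsto_inv_atTop_nhds_zero_nat (𝕜 := ℂ)).const_mul (1 - g : ℂ)
      rw [mul_zero] at this
      refine this.congr fun M => ?_
      rw [div_eq_mul_inv]
    have h2 := (h1.comp (tendsto_add_atTop_nat g)).const_add 1
    rw [add_zero] at h2
    refine h2.congr fun N => ?_
    have hN : ((N : ℂ) + g) ≠ 0 := by exact_mod_cast (by omega : N + g ≠ 0)
    simp only [Function.comp_apply]
    push_cast
    field_simp
    ring
  have hconv : ∀ (f : ℕ → ℂ) (x : ℂ),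
      Tendsto (fun N : ℕ => 2 * (Real.pi : ℂ) * f N / (N + 1)) atTop (𝓝 x) →
      Tendsto (fun N : ℕ => 2 * (Real.pi : ℂ) * f N / (N + g)) atTop (𝓝 x) := by
    intro f x hf
    have h1 := hf.mul hrat
    rw [mul_one] at h1
    refine h1.congr fun N => ?_
    have hN : ((N : ℂ) + 1) ≠ 0 := by exact_mod_cast Nat.succ_ne_zero N
    have hN' : ((N : ℂ) + g) ≠ 0 := by exact_mod_cast (by omega : N + g ≠ 0)
    field_simp
  refine ⟨J, ?_, ?_, ?_, _, hκ', hasy⟩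
  · intro N hN
    rw [hJ, hs]
    exact coloredSU_lim P b hP r hr n g N hn hg hgn hN
  · obtain ⟨L, hL1, hL2⟩ := Pool.Agent.H63.VC6.log_lift J g hg (2 * (n : ℝ) - 5 / 2) _ _ hκ' hasy
    exact ⟨L, hL1, hconv L _ hL2⟩
  · refine hconv (fun N => log (J N)) _ ?_
    have hn' := hasy.norm
    have hnorm : Tendsto (fun N : ℕ => ‖J N‖ / (((N + g : ℕ) : ℝ) ^ (2 * (n : ℝ) - 5 / 2) *
        Real.exp ((N + g : ℕ) * W.re))) atTop
        (𝓝 ‖((-1 : ℂ) ^ (n + g)) ^ s * K * exp B1 * σ * ((c : ℂ))⁻¹ * κ0‖) := by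
      refine hn'.congr fun N => ?_
      rw [norm_div]
      congr 1
      rw [norm_mul, Complex.norm_exp, Complex.norm_real, Real.norm_eq_abs,
        abs_of_nonneg (by positivity)]
      congr 1
      · push_cast; rfl
      · congr 1
        have e7 : ((N : ℂ) + g) * (((2 * Real.pi * W.re : ℝ) : ℂ) + (C : ℂ) * I) /
            (2 * Real.pi) = (((N : ℝ) + g) * W.re : ℝ) +
              (((N : ℝ) + g) * (C / (2 * Real.pi)) : ℝ) * I := by
          push_cast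
          field_simp
        rw [e7, Complex.add_re, Complex.ofReal_re, Complex.re_ofReal_mul, Complex.I_re]
        push_cast
        ring
    exact Pool.Agent.H63.VC3.final_log J g hg (2 * (n : ℝ) - 5 / 2) W.re _ (norm_pos_iff.2 hκ') hnorm

end Pool.Agent.S4
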