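import Pool.Agent.H63.TC.Main
import Pool.Agent.S4.B.Types
import Pool.Agent.S3.CV.Defs

/-!
# The figure eight knot
-/

set_option autoImplicit false

namespace Pool.Agent.S4

open Pool.Agent.H63.VC Pool.Agent.H63.VC7 Pool.Agent.H63.VC11
open Complex Filter Topology

/-- The expansion with even entries of the figure eight knot. -/
private theorem exr_22 {ε : ℤ} (hε : ε = 1 ∨ ε = -1) {L : List (Bool × ℤ)}
    (hL : L.map Prod.snd = [2 * ε, -(2 * ε)]) (h : OkL 0 L) : exr 0 L = [ε, -ε] := by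
  match L, hL, h with
  | [(P, b), (Q, c)], hL, h =>
    obtain ⟨rfl, rfl⟩ : b = 2 * ε ∧ c = -(2 * ε) := by simpa using hL
    rcases P with _ | _
    · rcases Q with _ | _
      · rcases hε with rfl | rfl <;> rfl
      · exfalso
        have h1 : (2 : ℤ) ∣ 2 * ε - 0 - (-(2 * ε)).sign := h.1
        rcases hε with rfl | rfl
        · revert h1
          decide
        · revert h1
          decide
    · rcases Q with _ | _
      · exfalso
        have h1 : (2 : ℤ) ∣ -(2 * ε) - (2 * ε).sign - 0 := h.2.2.1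
        rcases hε with rfl | rfl
        · revert h1
          decide
        · revert h1
          decide
      · exact absurd rfl (h.2.1 _ _)

/-- The factor `(N + 1) / (N + g)`. -/
private theorem tendsto_ratio (g : ℕ) (hg : 1 ≤ g) :
    Tendsto (fun N : ℕ => ((N : ℂ) + 1) / (N + g)) atTop (𝓝 1) := by
  have h1 : Tendsto (fun N : ℕ => 1 + ((1 : ℂ) - g) * (1 / ((N + (g - 1) : ℕ) + 1 : ℂ))) atTop
      (𝓝 (1 + ((1 : ℂ) - g) * 0)) :=
    tendsto_const_nhds.add (tendsto_const_nhds.mul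
      ((tendsto_one_div_add_atTop_nhds_zero_nat (𝕜 := ℂ)).comp (tendsto_add_atTop_nat (g - 1))))
  rw [mul_zero, add_zero] at h1
  refine h1.congr fun N => ?_
  have e : (((N + (g - 1) : ℕ) : ℂ) + 1) = (N : ℂ) + g := by
    rw [Nat.cast_add, Nat.cast_sub hg, Nat.cast_one]
    ring
  have h0 : (N : ℂ) + g ≠ 0 := by
    have : ((N + g : ℕ) : ℂ) ≠ 0 := Nat.cast_ne_zero.2 (by omega)
    rwa [Nat.cast_add] at this
  rw [e]
  field_simp
  ring

private theorem resc {f : ℕ → ℂ} {x : ℂ} (g : ℕ) (hg : 1 ≤ g)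
    (h : Tendsto (fun N : ℕ => f N / (N + 1)) atTop (𝓝 x)) :
    Tendsto (fun N : ℕ => f N / (N + g)) atTop (𝓝 x) := by
  have h1 := h.mul (tendsto_ratio g hg)
  rw [mul_one] at h1
  refine h1.congr fun N => ?_
  have h0 : (N : ℂ) + g ≠ 0 := by
    have : ((N + g : ℕ) : ℂ) ≠ 0 := Nat.cast_ne_zero.2 (by omega)
    rwa [Nat.cast_add] at this
  have h2 : (N : ℂ) + 1 ≠ 0 := Nat.cast_add_one_ne_zero N
  field_simp

/-- The main theorem for the figure eight knot. -/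
theorem v2_22 {m : ℕ} (hm : m = 1) {a : Fin (m + 1) → ℕ} (ha : a 0 = 2 ∧ a (Fin.last m) = 2)
    {ε : ℤ} (hε : ε = 1 ∨ ε = -1) :
    ∃ V C : ℝ, IsGreatest (structureVolumes (List.ofFn a)) V ∧
      (∃ Z : ℂ, Pool.Agent.S3.CV.IsComplexVolume (List.ofFn a) (decide (ε = -1)) Z ∧
        ∃ k : ℤ, Z = I * (V + C * I) + k * (Real.pi : ℂ) ^ 2) ∧
      ∀ n g : ℕ, 2 ≤ n → 1 ≤ g → g < n → ∀ (p : ℕ) (r : Fin (p + 1) → ℤ), (∀ i, r i ≠ 0) →
        (∃ k : ℤ, (mcf (List.ofFn fun i => 2 * r i))⁻¹ -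
          (mcf (List.ofFn fun i : Fin (m + 1) => ε * (-1) ^ (i : ℕ) * (a i : ℤ)))⁻¹ = k) →
        ∃ J : ℕ → ℂ,
          (∀ N : ℕ, n ≤ N → Tendsto (fun q => coloredSU (diagram Fin.castSucc r) n N q)
            (𝓝[≠] exp (Real.pi * I / (N + g))) (𝓝 (J N))) ∧
          (∃ L : ℕ → ℂ, (∀ᶠ N : ℕ in atTop, exp (L N) = J N) ∧
            Tendsto (fun N : ℕ => 2 * (Real.pi : ℂ) * L N / (N + g)) atTop (𝓝 (V + C * I))) ∧
          Tendsto (fun N : ℕ => 2 * (Real.pi : ℂ) * log (J N) / (N + g)) atTop (𝓝 (V : ℂ)) ∧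
          ∃ κ : ℂ, κ ≠ 0 ∧ Tendsto (fun N : ℕ => J N /
            ((((N : ℝ) + g) ^ (2 * (n : ℝ) - 5 / 2) : ℝ) *
              exp ((N + g) * (V + C * I) / (2 * Real.pi)))) atTop (𝓝 κ) := by
  subst hm
  have ha1 : a 1 = 2 := ha.2
  have hal : List.ofFn a = [2, 2] := by simp [List.ofFn_succ, ha.1, ha1]
  have hε0 : -ε ≠ 0 := by rcases hε with rfl | rfl <;> norm_num
  have hεε : ε * -ε = -1 := by rcases hε with rfl | rfl <;> norm_num
  obtain ⟨V, C, hV, ⟨Z, hZ, hk⟩, h⟩ := Pool.Agent.H63.TC.fin_all ε (-ε) hε0 (Or.inr hεε)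
  have hcon : Pool.Agent.H63.VC4.conway [ε, -ε] = [2, 2] := by
    rcases hε with rfl | rfl <;> decide
  have hdec : decide (ε < 0) = decide (ε = -1) := by rcases hε with rfl | rfl <;> rfl
  rw [hcon] at hV hZ
  rw [hdec] at hZ
  refine ⟨V, C, by rw [hal]; exact hV, ⟨Z, ?_, hk⟩, ?_⟩
  · rw [hal]
    obtain ⟨l, z, w, j, p, q, h1, h2, h3, h4, h5, h6, h7, h8, h9⟩ := hZ
    exact ⟨l, z, w, j, p, q, h2, Or.inl ⟨h1, h6, h7⟩, h3, h4, h5, h8, h9⟩
  intro n g hn hg hgn p r hr0 hr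
  set b : Fin (1 + 1) → ℤ := fun i => ε * (-1) ^ (i : ℕ) * (a i : ℤ) with hb
  have hb0 : b 0 = 2 * ε := by
    simp [hb, ha.1]
    ring
  have hb1 : b 1 = -(2 * ε) := by
    simp [hb, ha1]
    ring
  obtain ⟨P, hP, hPr⟩ := types b (by
    intro i
    fin_cases i
    · show 2 ≤ |b 0|
      rw [hb0]
      rcases hε with rfl | rfl <;> decide
    · show 2 ≤ |b 1|
      rw [hb1]
      rcases hε with rfl | rfl <;> decide) (by
    intro j
    fin_cases j
    show b 0 * b 1 < 0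
    rw [hb0, hb1]
    rcases hε with rfl | rfl <;> decide) r hr0 hr
  have hL : (List.ofFn fun i => (P i, b i)).map Prod.snd = [2 * ε, -(2 * ε)] := by
    rw [List.map_ofFn]
    simp [List.ofFn_succ, hb0, hb1]
  have hr2 := exr_22 hε hL hP
  rw [hr2] at hPr
  have hp : p = 1 := by
    have := congrArg List.length hPr
    simpa using this
  subst hp
  have hrr : r = ![ε, -ε] := by
    have h1 : List.ofFn r = List.ofFn ![ε, -ε] := by rw [hPr]; simp [List.ofFn_succ]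
    exact List.ofFn_injective h1
  subst hrr
  obtain ⟨J, hJ, ⟨L, hL1, hL2⟩, hlog, hκ⟩ := h n g hn hg (by omega)
  exact ⟨J, fun N _ => hJ N, ⟨L, hL1, resc g hg hL2⟩, resc g hg hlog, hκ⟩

end Pool.Agent.S4
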