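import Pool.Agent.S4.Root

/-!
# Antiparallel ends with two half twists
-/

set_option autoImplicit false

namespace Pool.Agent.S4

open Pool.Agent.H63.VC7

/-- The sign of the last twist region if its strands are parallel. -/
private def ls : ℤ → List (Bool × ℤ) → ℤ
  | s, [] => s
  | _, (false, _) :: l => ls 0 l
  | _, (true, b) :: l => ls b.sign l

private theorem ls_snoc (s : ℤ) (l : List (Bool × ℤ)) (c : ℤ) :
    ls s (l ++ [(true, c)]) = c.sign := by
  induction l generalizing s with
  | nil => rfl
  | cons x l ih =>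
    obtain ⟨P, b⟩ := x
    cases P
    · exact ih 0
    · exact ih b.sign

private theorem OkL_mid (s : ℤ) (l1 l2 : List (Bool × ℤ)) (b : ℤ)
    (h : OkL s (l1 ++ (false, b) :: l2)) : 2 ∣ b - ls s l1 - hs l2 := by
  induction l1 generalizing s with
  | nil => exact h.1
  | cons x l ih =>
    obtain ⟨P, c⟩ := x
    cases P
    · exact ih 0 h.2
    · exact ih c.sign h.2.2

private theorem OkL_ne (s : ℤ) (l1 l2 : List (Bool × ℤ)) (b : ℤ)
    (h : OkL s (l1 ++ (true, b) :: l2)) : b ≠ 0 := by
  induction l1 generalizing s with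
  | nil => exact h.1
  | cons x l ih =>
    obtain ⟨P, c⟩ := x
    cases P
    · exact ih 0 h.2
    · exact ih c.sign h.2.2

private theorem two_dvd_sign {b c : ℤ} (hb : b = 2 ∨ b = -2) (hc : c ≠ 0)
    (h : 2 ∣ b - c.sign) : False := by
  rcases lt_or_gt_of_ne hc with h0 | h0
  · rw [Int.sign_eq_neg_one_of_neg h0] at h
    omega
  · rw [Int.sign_eq_one_of_pos h0] at h
    omega

variable {m : ℕ}

/-- The neighbour of an antiparallel end with two half twists is antiparallel. -/
theorem okl_sn (hm : 1 ≤ m) (P : Fin (m + 1) → Bool) (b : Fin (m + 1) → ℤ)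
    (hP : OkL 0 (List.ofFn fun i => (P i, b i))) {i : Fin (m + 1)} (hi : i = 0 ∨ i = Fin.last m)
    (hb : b i = 2 ∨ b i = -2) (hPi : P i = false) : sn P i = 0 := by
  obtain ⟨m, rfl⟩ : ∃ k, m = k + 1 := ⟨m - 1, by omega⟩
  unfold sn
  rw [Finset.card_eq_zero, Finset.filter_eq_empty_iff]
  intro j hj
  have hj' : j.castSucc = i ∨ j.succ = i := by
    simpa [ie, inc] using hj
  rcases hi with rfl | rfl
  · -- the left end
    have hj0 : j = 0 := by
      rcases hj' with h | h
      · exact Fin.castSucc_eq_zero_iff.1 h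
      · exact absurd h (Fin.succ_ne_zero j)
    subst hj0
    have e : (List.ofFn fun i => (P i, b i)) = (P 0, b 0) :: (P 1, b 1) ::
        List.ofFn (fun i : Fin m => (P i.succ.succ, b i.succ.succ)) := by
      rw [List.ofFn_succ, List.ofFn_succ]
      rfl
    rw [e, hPi] at hP
    have h1 := hP.1
    unfold et
    intro h2
    have e0 : (Fin.castSucc (0 : Fin (m + 1))) = 0 := rfl
    have e1 : (Fin.succ (0 : Fin (m + 1))) = 1 := rfl
    rw [e0, e1, hPi, Bool.false_or] at h2
    rw [h2] at h1 hP
    have h3 : b 1 ≠ 0 := hP.2.1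
    refine two_dvd_sign hb h3 ?_
    have h4 : hs ((true, b 1) :: List.ofFn (fun i : Fin m => (P i.succ.succ, b i.succ.succ))) =
        (b 1).sign := rfl
    rw [h4] at h1
    simpa using h1
  · -- the right end
    have hj0 : j = Fin.last m := by
      rcases hj' with h | h
      · exact absurd h (Fin.castSucc_lt_last j).ne
      · rw [← Fin.succ_last] at h
        exact Fin.succ_injective _ h
    subst hj0
    have e : (List.ofFn fun i => (P i, b i)) =
        (List.ofFn (fun i : Fin m => (P i.castSucc.castSucc, b i.castSucc.castSucc)) ++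
          [(P (Fin.last m).castSucc, b (Fin.last m).castSucc)]) ++
        [(P (Fin.last (m + 1)), b (Fin.last (m + 1)))] := by
      rw [List.ofFn_succ', List.ofFn_succ', List.concat_eq_append, List.concat_eq_append]
    rw [e] at hP
    unfold et
    intro h2
    have e1 : (Fin.succ (Fin.last m)) = Fin.last (m + 1) := Fin.succ_last m
    rw [e1, hPi, Bool.or_false] at h2
    rw [hPi, h2] at hP
    have h1 := OkL_mid 0 _ [] _ hP
    rw [ls_snoc] at h1
    have h3 : b (Fin.last m).castSucc ≠ 0 := by
      rw [List.append_assoc] at hP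
      exact OkL_ne 0 _ _ _ hP
    refine two_dvd_sign hb h3 ?_
    have h4 : hs [] = 0 := rfl
    rw [h4, sub_zero] at h1
    exact h1

end Pool.Agent.S4
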