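import Pool.Agent.S4.Defs

/-!
# Existence of continued fractions with even entries
-/

set_option autoImplicit false

namespace Pool.Agent.S4

private theorem even_aux : ∀ (k : ℕ) (α β : ℤ), β.natAbs ≤ k → β ≠ 0 → |β| < |α| →
    ¬ (α % 2 = β % 2) → ∃ l : List ℤ, l ≠ [] ∧ (∀ x ∈ l, x ≠ 0) ∧
      mcf (l.map fun x => 2 * x) = (α : ℚ) / β := by
  intro k
  induction k with
  | zero =>
    intro α β h h0 _ _
    exact absurd (by omega) h0
  | succ k ih =>
    intro α β hk h0 hlt hpar
    -- the even integer nearest to `α / β`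
    obtain ⟨r, hr⟩ : ∃ r : ℤ, |α - 2 * r * β| < |β| := by
      have hb : 0 < |β| := abs_pos.2 h0
      -- division with remainder by `2 |β|`
      have h2 : (0 : ℤ) < 2 * |β| := by linarith
      set q := (α + |β|) / (2 * |β|) with hq
      have e1 := Int.emod_add_mul_ediv (α + |β|) (2 * |β|)
      have e2 := Int.emod_nonneg (α + |β|) h2.ne'
      have e3 := Int.emod_lt_of_pos (α + |β|) h2
      rw [← hq] at e1
      have hs : β.sign * β = |β| := Int.sign_mul_self_eq_abs β
      have hss : β.sign * β.sign = 1 := by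
        rcases lt_or_gt_of_ne h0 with h | h
        · rw [Int.sign_eq_neg_one_of_neg h]; norm_num
        · rw [Int.sign_eq_one_of_pos h]; norm_num
      refine ⟨q * β.sign, ?_⟩
      have e4 : 2 * (q * β.sign) * β = 2 * |β| * q := by
        rw [← hs]; ring
      rw [e4]
      have e5 : α - 2 * |β| * q = (α + |β|) % (2 * |β|) - |β| := by linarith
      rw [e5, abs_lt]
      refine ⟨?_, by linarith⟩
      rcases e2.lt_or_eq with h | h
      · linarith
      · exfalso
        apply hpar
        have e6 : α = 2 * |β| * q - |β| := by linarith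
        rcases abs_choice β with h1 | h1
        · rw [h1] at e6
          rw [e6, show 2 * β * q - β = β + 2 * (β * q - β) by ring]
          omega
        · rw [h1] at e6
          rw [e6, show 2 * -β * q - -β = β + 2 * (-(β * q)) by ring]
          omega
    have hr0 : r ≠ 0 := by
      rintro rfl
      rw [mul_zero, zero_mul, sub_zero] at hr
      linarith
    have hbq : (β : ℚ) ≠ 0 := by exact_mod_cast h0
    by_cases hz : α - 2 * r * β = 0
    · refine ⟨[r], by simp, by simpa using hr0, ?_⟩
      show ((2 * r : ℤ) : ℚ) - (mcf [])⁻¹ = _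
      have : (α : ℚ) = 2 * r * β := by
        have : α = 2 * r * β := by linarith
        exact_mod_cast this
      rw [this]
      simp only [mcf, inv_zero, sub_zero]
      push_cast
      field_simp
    · obtain ⟨l, hl, hl0, hlm⟩ := ih β (-(α - 2 * r * β)) (by
        rw [Int.natAbs_neg]
        have : (α - 2 * r * β).natAbs < β.natAbs := by
          have := hr
          rw [Int.abs_eq_natAbs, Int.abs_eq_natAbs] at this
          exact_mod_cast this
        omega) (neg_ne_zero.2 hz) (by rw [abs_neg]; exact hr) (by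
        intro h
        apply hpar
        have : -(α - 2 * r * β) = α + 2 * (r * β - α) := by ring
        rw [this] at h
        omega)
      refine ⟨r :: l, by simp, ?_, ?_⟩
      · intro x hx
        rcases List.mem_cons.1 hx with rfl | hx
        · exact hr0
        · exact hl0 x hx
      · show ((2 * r : ℤ) : ℚ) - (mcf (l.map fun x => 2 * x))⁻¹ = _
        rw [hlm]
        have hzq : (-(α - 2 * r * β) : ℚ) ≠ 0 := by
          have : (-(α - 2 * r * β) : ℤ) ≠ 0 := neg_ne_zero.2 hz
          exact_mod_cast this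
        rw [inv_div]
        push_cast
        field_simp
        ring

/-- Every rational number which is not an integer has, up to an integer, a continued fraction with
even entries. -/
theorem exists_even (x : ℚ) (hx : x.den ≠ 1) : ∃ (p : ℕ) (r : Fin (p + 1) → ℤ), (∀ i, r i ≠ 0) ∧
    ∃ k : ℤ, (mcf (List.ofFn fun i => 2 * r i))⁻¹ - x = k := by
  -- a numerator of opposite parity
  have hd : 2 ≤ x.den := by
    have := x.den_pos
    omega
  obtain ⟨β, c, hβ, hlt, hpar, h0⟩ : ∃ β c : ℤ, β = x.num + c * x.den ∧ |β| < |(x.den : ℤ)| ∧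
      ¬ ((x.den : ℤ) % 2 = β % 2) ∧ β ≠ 0 := by
    have hc := x.reduced
    have hdz : (2 : ℤ) ≤ x.den := by exact_mod_cast hd
    set d : ℤ := (x.den : ℤ) with hdd
    have e1 := Int.emod_add_mul_ediv x.num d
    have e2 := Int.emod_nonneg x.num (by linarith : d ≠ 0)
    have e3 := Int.emod_lt_of_pos x.num (by linarith : (0 : ℤ) < d)
    have hne : x.num % d ≠ 0 := by
      intro h
      have h1 : d ∣ x.num := Int.dvd_of_emod_eq_zero h
      have h2 : x.den ∣ x.num.natAbs := by
        rw [hdd] at h1
        exact Int.natCast_dvd.1 h1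
      have h3 := Nat.Coprime.eq_one_of_dvd hc.symm h2
      exact hx h3
    have habs : |d| = d := abs_of_nonneg (by linarith)
    by_cases hpar : d % 2 = (x.num % d) % 2
    · -- both have the same parity: both are odd
      have hodd : d % 2 = 1 := by
        rcases Int.emod_two_eq_zero_or_one d with h | h
        · exfalso
          have h2 : (2 : ℤ) ∣ d := Int.dvd_of_emod_eq_zero h
          have h4 : (2 : ℤ) ∣ x.num := by
            have h5 : (2 : ℤ) ∣ x.num % d := Int.dvd_of_emod_eq_zero (by rw [← hpar]; exact h)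
            rw [← e1]
            exact dvd_add h5 (dvd_mul_of_dvd_left h2 _)
          have h6 : (2 : ℕ) ∣ x.den := by
            rw [hdd] at h2
            exact_mod_cast h2
          have h7 : (2 : ℕ) ∣ x.num.natAbs := by
            exact Int.natCast_dvd.1 (by exact_mod_cast h4)
          have h8 := Nat.dvd_gcd h7 h6
          rw [hc] at h8
          omega
        · exact h
      refine ⟨x.num % d - d, -(x.num / d) - 1, ?_, ?_, ?_, ?_⟩
      · linear_combination e1
      · rw [habs, abs_lt]
        have : 0 < x.num % d := lt_of_le_of_ne e2 (Ne.symm hne)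
        constructor <;> linarith
      · omega
      · intro h
        linarith
    · refine ⟨x.num % d, -(x.num / d), ?_, ?_, hpar, hne⟩
      · linarith [mul_comm d (x.num / d)]
      · rw [habs, abs_lt]
        constructor <;> linarith
  obtain ⟨l, hl, hl0, hlm⟩ := even_aux _ (x.den : ℤ) β le_rfl h0 hlt hpar
  obtain ⟨p, hp⟩ : ∃ p, l.length = p + 1 := ⟨l.length - 1, by
    have := List.length_pos_iff.2 hl
    omega⟩
  refine ⟨p, fun i => l.get (i.cast hp.symm), fun i => hl0 _ (List.get_mem _ _), c, ?_⟩
  have hL : (List.ofFn fun i : Fin (p + 1) => 2 * l.get (i.cast hp.symm)) =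
      l.map fun x => 2 * x := by
    apply List.ext_getElem
    · simp [hp]
    · intro n h1 h2
      rw [List.getElem_ofFn, List.getElem_map]
      rfl
  rw [hL, hlm]
  have hden : ((x.den : ℤ) : ℚ) ≠ 0 := by
    have := x.den_pos.ne'
    exact_mod_cast this
  have hx2 : x * ((x.den : ℤ) : ℚ) = (x.num : ℚ) := by
    have := Rat.mul_den_eq_num x
    exact_mod_cast this
  rw [inv_div, hβ]
  rw [sub_eq_iff_eq_add, div_eq_iff hden]
  push_cast at hx2 ⊢
  linear_combination -hx2

/-- The alternating list of the numbers of half twists. -/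
private def altL : ℤ → List ℕ → List ℤ
  | _, [] => []
  | e, a :: l => e * a :: altL (-e) l

private theorem altL_ofFn (m : ℕ) : ∀ (e : ℤ) (a : Fin m → ℕ),
    (List.ofFn fun i : Fin m => e * (-1) ^ (i : ℕ) * (a i : ℤ)) = altL e (List.ofFn a) := by
  induction m with
  | zero => intro e a; simp [altL]
  | succ m ih =>
    intro e a
    rw [List.ofFn_succ, List.ofFn_succ]
    show _ = e * (a 0 : ℤ) :: altL (-e) (List.ofFn fun i => a i.succ)
    rw [← ih]
    congr 1
    · simp
    · congr 1
      funext i
      simp only [Fin.val_succ, pow_succ]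
      ring

private theorem altL_ge (l : List ℕ) : ∀ (e : ℤ), (e = 1 ∨ e = -1) → (∀ x ∈ l, 2 ≤ x) → l ≠ [] →
    2 ≤ (e : ℚ) * mcf (altL e l) := by
  induction l with
  | nil => intro e _ _ h; exact absurd rfl h
  | cons a l ih =>
    intro e he h2 _
    have ha : (2 : ℚ) ≤ (a : ℚ) := by exact_mod_cast h2 a (by simp)
    have heq : (e : ℚ) * (e : ℚ) = 1 := by rcases he with rfl | rfl <;> norm_num
    have hi : 0 ≤ ((-e : ℤ) : ℚ) * (mcf (altL (-e) l))⁻¹ := by
      by_cases hl : l = []
      · subst hl
        show 0 ≤ ((-e : ℤ) : ℚ) * (mcf [])⁻¹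
        simp [mcf]
      · have h1 := ih (-e) (by omega) (fun x hx => h2 x (by simp [hx])) hl
        have h3 : ((-e : ℤ) : ℚ) * (mcf (altL (-e) l))⁻¹ =
            (((-e : ℤ) : ℚ) * mcf (altL (-e) l))⁻¹ := by
          rw [mul_inv]
          congr 1
          refine eq_inv_of_mul_eq_one_left ?_
          push_cast
          linear_combination heq
        rw [h3]
        exact inv_nonneg.2 (by linarith)
    show 2 ≤ (e : ℚ) * (((e * (a : ℤ) : ℤ) : ℚ) - (mcf (altL (-e) l))⁻¹)
    push_cast at hi ⊢
    have : (e : ℚ) * ((e : ℚ) * a - (mcf (altL (-e) l))⁻¹) =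
        a + -(e : ℚ) * (mcf (altL (-e) l))⁻¹ := by linear_combination (a : ℚ) * heq
    rw [this]
    linarith

/-- Every two-bridge link is the boundary of a linear plumbing of annuli. -/
theorem exists_annuli {m : ℕ} (a : Fin (m + 1) → ℕ) (ha : ∀ i, 2 ≤ a i) {ε : ℤ}
    (hε : ε = 1 ∨ ε = -1) : ∃ (p : ℕ) (r : Fin (p + 1) → ℤ), (∀ i, r i ≠ 0) ∧
      ∃ k : ℤ, (mcf (List.ofFn fun i => 2 * r i))⁻¹ -
        (mcf (List.ofFn fun i : Fin (m + 1) => ε * (-1) ^ (i : ℕ) * (a i : ℤ)))⁻¹ = k := by
  refine exists_even _ fun h => ?_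
  have h2 := altL_ge (List.ofFn a) ε hε (fun x hx => by
    rw [List.mem_ofFn] at hx
    obtain ⟨i, rfl⟩ := hx
    exact ha i) (by simp)
  rw [altL_ofFn] at h
  set y := mcf (altL ε (List.ofFn a)) with hy
  have hab : 2 ≤ |y| := by
    rcases hε with rfl | rfl
    · push_cast at h2
      rw [one_mul] at h2
      exact h2.trans (le_abs_self y)
    · push_cast at h2
      exact h2.trans (by rw [neg_one_mul]; exact neg_le_abs y)
  have hy0 : y ≠ 0 := by
    intro h0
    rw [h0, abs_zero] at hab
    norm_num at hab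
  have hint : ((y⁻¹).num : ℚ) = y⁻¹ := by
    have := Rat.num_div_den (y⁻¹)
    rw [h, Nat.cast_one, div_one] at this
    exact this
  have h4 : |y⁻¹| ≤ 1 / 2 := by
    rw [abs_inv, inv_eq_one_div]
    exact one_div_le_one_div_of_le (by norm_num) hab
  rw [← hint] at h4
  have h5 : (y⁻¹).num ≠ 0 := by
    intro h0
    rw [h0] at hint
    exact inv_ne_zero hy0 (by rw [← hint]; simp)
  have h6 : (1 : ℚ) ≤ |((y⁻¹).num : ℚ)| := by
    have := Int.one_le_abs h5
    exact_mod_cast this
  linarith

end Pool.Agent.S4
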