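import Pool.Agent.S4.F.Main

/-!
# The complexified volume conjecture for the colored `SU(n)` invariants of two-bridge links
-/

set_option autoImplicit false

namespace Pool.Agent.S4

open Pool.Agent.H63.VC hiding ext
open Pool.Agent.H63.VC3 Pool.Agent.H63.VC7 Pool.Agent.H63.VC8 Pool.Agent.H63.VC11
open Pool.Agent.H63.VC12 Pool.Agent.H25.RK Pool.Agent.S3 Pool.Agent.H63.GO
open Pool.Agent.S3.E Pool.Agent.S3.T2
open Pool.Agent.S3.T (sgn sgn_or sgn_succ CVOK no_two_closed cvOK)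
open Complex Filter Topology

variable {m : ℕ}

/-- The main theorem. -/
theorem v2 (hm : 1 ≤ m) {a : Fin (m + 1) → ℕ} (ha : ∀ i, 2 ≤ a i)
    (h22 : m = 1 → ¬ (a 0 = 2 ∧ a (Fin.last m) = 2)) {ε : ℤ} (hε : ε = 1 ∨ ε = -1)
    (H : ∀ (Φ : ℂ → ℂ → ℂ) (z : Fin (m + 1) → ℂ), IsPhi Φ → Φ 0 0 = c00 →
      Zr (fun i => (a i : ℝ)) chL chR 1 z → Hyp2 Φ a z) :
    ∃ V C : ℝ, IsGreatest (structureVolumes (List.ofFn a)) V ∧
      (∃ Z : ℂ, CV.IsComplexVolume (List.ofFn a) (decide (ε = -1)) Z ∧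
        ∃ k : ℤ, Z = I * (V + C * I) + k * (Real.pi : ℂ) ^ 2) ∧
      ∀ n g : ℕ, 2 ≤ n → 1 ≤ g → g < n → ∀ (p : ℕ) (r : Fin (p + 1) → ℤ), (∀ i, r i ≠ 0) →
        (∃ k : ℤ, (mcf (List.ofFn fun i => 2 * r i))⁻¹ -
          (mcf (List.ofFn fun i : Fin (m + 1) => ε * (-1) ^ (i : ℕ) * (a i : ℤ)))⁻¹ = k) →
        ∃ J : ℕ → ℂ,
          (∀ N : ℕ, n ≤ N → Tendsto (fun q => coloredSU (diagram Fin.castSucc r) n N q)
            (𝓝[≠] exp (Real.pi * I / (N + g))) (𝓝 (J N))) ∧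
          (∃ L : ℕ → ℂ, (∀ᶠ N : ℕ in atTop, exp (L N) = J N) ∧
            Tendsto (fun N : ℕ => 2 * (Real.pi : ℂ) * L N / (N + g)) atTop (𝓝 (V + C * I))) ∧
          Tendsto (fun N : ℕ => 2 * (Real.pi : ℂ) * log (J N) / (N + g)) atTop (𝓝 (V : ℂ)) ∧
          ∃ κ : ℂ, κ ≠ 0 ∧ Tendsto (fun N : ℕ => J N /
            ((((N : ℝ) + g) ^ (2 * (n : ℝ) - 5 / 2) : ℝ) *
              exp ((N + g) * (V + C * I) / (2 * Real.pi)))) atTop (𝓝 κ) := by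
  obtain ⟨Φ, hΦ, h0⟩ := exists_Phi c00
  obtain ⟨z, hz⟩ := exists_crit hm ha
  exact v2_of hm ha h22 hε hΦ h0 hz (H Φ z hΦ h0 hz) (cvOK hm ha hε hz)

end Pool.Agent.S4
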