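import Pool.Agent.S3.T.Two1
import Pool.Agent.S4.B.Types
import Pool.Agent.S4.F.Ends
import Pool.Agent.S4.F.Fin1
import Pool.Agent.S4.G.Lim

/-!
# The complexified volume conjecture for the colored `SU(n)` invariants of two-bridge links: the
assembly
-/

set_option autoImplicit false

namespace Pool.Agent.S4

open Pool.Agent.H63.VC hiding ext
open Pool.Agent.H63.VC3 Pool.Agent.H63.VC7 Pool.Agent.H63.VC8 Pool.Agent.H63.VC11
open Pool.Agent.H63.VC12 Pool.Agent.H25.RK Pool.Agent.S3 Pool.Agent.H63.GO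
open Pool.Agent.S3.E Pool.Agent.S3.T2
open Pool.Agent.S3.T (sgn sgn_or sgn_succ CVOK no_two_closed cvOK cfg_vol)
open Complex Filter Topology

variable {m : ℕ} {a : Fin (m + 1) → ℕ}

/-- The main theorem, for the potential and the zero. -/
theorem v2_of (hm : 1 ≤ m) (ha : ∀ i, 2 ≤ a i)
    (h22 : m = 1 → ¬ (a 0 = 2 ∧ a (Fin.last m) = 2)) {ε : ℤ} (hε : ε = 1 ∨ ε = -1)
    {Φ : ℂ → ℂ → ℂ} (hΦ : IsPhi Φ) (h0 : Φ 0 0 = c00) {z : Fin (m + 1) → ℂ}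
    (hz : Zr (fun i => (a i : ℝ)) chL chR 1 z) (H : Hyp2 Φ a z) (hcv : CVOK a ε z) :
    ∃ V C : ℝ, IsGreatest (structureVolumes (List.ofFn a)) V ∧
      (∃ Z : ℂ, CV.IsComplexVolume (List.ofFn a) (decide (ε = -1)) Z ∧
        ∃ k : ℤ, Z = I * (V + C * I) + k * (Real.pi : ℂ) ^ 2) ∧
      ∀ n g : ℕ, 2 ≤ n → 1 ≤ g → g < n → ∀ (p : ℕ) (r : Fin (p + 1) → ℤ), (∀ i, r i ≠ 0) →
        (∃ k : ℤ, (mcf (List.ofFn fun i => 2 * r i))⁻¹ -
          (mcf (List.ofFn fun i : Fin (m + 1) => ε * (-1) ^ (i : ℕ) * (a i : ℤ)))⁻¹ = k) →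
        ∃ J : ℕ → ℂ,
          (∀ N : ℕ, n ≤ N → Tendsto (fun q => coloredSU (diagram Fin.castSucc r) n N q)
            (𝓝[≠] exp (Real.pi * I / (N + g))) (𝓝 (J N))) ∧
          (∃ L : ℕ → ℂ, (∀ᶠ N : ℕ in atTop, exp (L N) = J N) ∧
            Tendsto (fun N : ℕ => 2 * (Real.pi : ℂ) * L N / (N + g)) atTop (𝓝 (V + C * I))) ∧
          Tendsto (fun N : ℕ => 2 * (Real.pi : ℂ) * log (J N) / (N + g)) atTop (𝓝 (V : ℂ)) ∧
          ∃ κ : ℂ, κ ≠ 0 ∧ Tendsto (fun N : ℕ => J N /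
            ((((N : ℝ) + g) ^ (2 * (n : ℝ) - 5 / 2) : ℝ) *
              exp ((N + g) * (V + C * I) / (2 * Real.pi)))) atTop (𝓝 κ) := by
  have hσ := sgn_or (m := m) hε
  have hs := sgn_succ (m := m) ε
  have h2 := no_two_closed h22
  have hD := H.ood (σ := sgn ε) hz ha hΦ h0
  have hE := edg_of hΦ h0 hz ha hσ hs h2 (vT_V1 a) (hR_t2 hz ha) hD
    (fun j hc => clEdge_of hz ha hσ hs h2 hc)
  set b : Fin (m + 1) → ℤ := fun i => ε * (-1) ^ (i : ℕ) * (a i : ℤ) with hb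
  have hbs : ∀ i, b i = sgn ε i * (a i : ℤ) := fun i => rfl
  have hb2 : ∀ i, 2 ≤ |b i| := by
    intro i
    have h1 : (2 : ℤ) ≤ (a i : ℤ) := by exact_mod_cast ha i
    rw [hbs]
    rcases hσ i with h | h
    · rw [h, one_mul, abs_of_nonneg (by linarith)]
      exact h1
    · rw [h, neg_one_mul, abs_neg, abs_of_nonneg (by linarith)]
      exact h1
  have hbn : ∀ j : Fin m, b j.castSucc * b j.succ < 0 := by
    intro j
    have h1 : (2 : ℤ) ≤ (a j.castSucc : ℤ) := by exact_mod_cast ha _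
    have h3 : (2 : ℤ) ≤ (a j.succ : ℤ) := by exact_mod_cast ha _
    have h4 : (0 : ℤ) < (a j.castSucc : ℤ) * (a j.succ : ℤ) := by positivity
    rw [hbs, hbs, hs j]
    rcases hσ j.castSucc with h | h
    · rw [h]
      linarith
    · rw [h]
      linarith
  have hrc : (cfgOf a (sgn ε) z).r = fun i => (b i : ℝ) / 2 := by
    funext i
    show (sgn ε i : ℝ) * a i / 2 = (b i : ℝ) / 2
    rw [hbs]
    push_cast
    ring
  obtain ⟨Z, hZ, k', hk'⟩ := hcv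
  obtain ⟨k, hk⟩ := C4_spec b
    ((cfgOf a (sgn ε) z).V (cp (cfgOf a (sgn ε) z).ac (cfgOf a (sgn ε) z).bc)) (cfgOf a (sgn ε) z).Op
  refine ⟨_, C4 b ((cfgOf a (sgn ε) z).V (cp (cfgOf a (sgn ε) z).ac (cfgOf a (sgn ε) z).bc))
    (cfgOf a (sgn ε) z).Op, cfg_vol hm hz ha hσ hs h2, ⟨Z, hZ, k' - k, ?_⟩, ?_⟩
  · have hsum : ∑ i, ((sgn ε i * a i : ℤ) : ℂ) = ∑ i, (b i : ℂ) := rfl
    rw [hk', hk, hsum]
    push_cast
    ring
  intro n g hn hg hgn p r hr0 hr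
  obtain ⟨P, hP, hPr⟩ := types b hb2 hbn r hr0 hr
  have hPc : ∀ i, clo a i → P i = false → sn P i = 0 := by
    intro i hi hPi
    refine okl_sn hm P b hP hi.2 ?_ hPi
    have h1 : (a i : ℤ) = 2 := by exact_mod_cast hi.1
    rw [hbs, h1]
    rcases hσ i with h | h
    · left
      rw [h]
      norm_num
    · right
      rw [h]
      norm_num
  obtain ⟨c, hc, hlim⟩ := JG4_lim (n := n) (h := min g (n - g)) hn (by omega) (by omega) P hPc hm hz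
    ha hσ hs h2 (reC_of hz ha) hΦ h0 hD hE
  rw [hrc] at hlim
  exact fin4 P b hP r hPr hn hg hgn _ _ hc hlim

end Pool.Agent.S4
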