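import Mathlib

/-!
# Division by `N + g` and division by `N + 1`
-/

set_option autoImplicit false

namespace Pool.Agent.S4

open Filter Topology

/-- In the limits of the logarithms one may divide by `N + 1` instead of `N + g`. -/
theorem tendsto_np1 {L : ℕ → ℂ} {g : ℕ} {c : ℂ}
    (h : Tendsto (fun N : ℕ => 2 * (Real.pi : ℂ) * L N / (N + g)) atTop (𝓝 c)) :
    Tendsto (fun N : ℕ => 2 * (Real.pi : ℂ) * L N / (N + 1)) atTop (𝓝 c) := by
  have h1 : Tendsto (fun N : ℕ => 1 + ((g : ℂ) - 1) * (1 / ((N : ℂ) + 1))) atTop (𝓝 1) := by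
    have := (tendsto_one_div_add_atTop_nhds_zero_nat (𝕜 := ℂ)).const_mul ((g : ℂ) - 1)
    simpa using this.const_add 1
  have h2 := h.mul h1
  rw [mul_one] at h2
  refine h2.congr' ?_
  filter_upwards [eventually_ge_atTop 1] with N hN
  have e1 : (N : ℂ) + g ≠ 0 := by
    have : (N : ℂ) + g = ((N + g : ℕ) : ℂ) := by push_cast; rfl
    rw [this]
    exact Nat.cast_ne_zero.2 (by omega)
  have e2 : (N : ℂ) + 1 ≠ 0 := Nat.cast_add_one_ne_zero N
  field_simp
  ring

end Pool.Agent.S4
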